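import Pool.Agent.H305.TI.Inflow

/-!
# Singularities of type I need inflow through every sphere through the singular point

Let `(u, p)` be a solution of the Navier-Stokes equations with viscosity `ν`, smooth for `t < T` on a
ball around `x₀`, with `|u| (|x - x₀| + √(T - t)) ≤ M` and `|p| (|x - x₀| + √(T - t))² ≤ M²`
(type I). Let `c` be any centre with `|x₀ - c| ≤ r` and let `S` be the thin spherical shell
`||x - c| - |x₀ - c|| < δ r` around the sphere with centre `c` through `x₀`. If `u` is singular at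
`(x₀, T)`, then
  `∫∫ ((x - c) · u)₋ dx dt > ε r⁵`  over `x ∈ S`, `ε r² < ν (T - t) < r²`, `ε = ε(ν, M, δ) > 0`,
at all small scales `r`, and the same holds for the positive part. So a one-sided bound for the normal
component of the velocity on one thin spherical shell which contains `x₀` excludes a singularity of
type I at `(x₀, T)`, whatever the centre of the shell is.

Proof. If this fails, limits of rescaled solutions are ancient solutions `v` with
`|v| (|x| + √(-t)) ≤ M'` for which `(x - c) · v` has a sign in a spherical shell for `-1 < t < 0`.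
As the flux through spheres is zero, `(x - c) · v = 0` in the shell. Then `g = (x - c) · ω`, `ω` the
vorticity, solves `∂ₜg + v · ∇g = Δg` without a stretching term near the singular point, and a
weighted maximum principle shows that `g` is bounded up to the time `0`. So, under a second rescaling
at the singular point, `c · W = c · curl W = 0` in the limit if `c ≠ 0`, and `x · W = x · curl W = 0` if
`c = 0`; both imply `W = 0`, since a tangential field without radial vorticity on spheres is harmonic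
there. But the singularity makes the vorticity nonzero at all scales.
-/

set_option autoImplicit false

open MeasureTheory Set Metric Filter Topology
open scoped ContDiff ENNReal

namespace Pool.Agent.Results.MP_6bf1e5_an.FlowThroughSpheres

open H459R3.NS (V pd)
open Pool.Agent.Results.MP_6bf1e5_an.PressureMonotone (TypeI Reg)

/-- The Euclidean distance. -/
noncomputable def ed (x c : V) : ℝ := √(∑ i, (x i - c i) ^ 2)

theorem result (ν M δ : ℝ) (hν : 0 < ν) (hM : 0 < M) (hδ : 0 < δ) : ∃ ε : ℝ, 0 < ε ∧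
    ∀ (T ρ : ℝ) (x₀ : V) (u : ℝ → V → V) (p : ℝ → V → ℝ), TypeI ν M T ρ x₀ u p → ¬ Reg T x₀ u →
      ∀ r : ℝ, 0 < r → r ≤ ε * ρ → r ^ 2 ≤ ε * (ν * T) → ∀ c : V, ed x₀ c ≤ r →
          ENNReal.ofReal (ε * r ^ 5) < ∫⁻ t in Ioo (T - r ^ 2 / ν) (T - ε * r ^ 2 / ν),
              ∫⁻ x in {x : V | |ed x c - ed x₀ c| < δ * r},
                ENNReal.ofReal (-(∑ i, (x i - c i) * u t x i)) ∧
          ENNReal.ofReal (ε * r ^ 5) < ∫⁻ t in Ioo (T - r ^ 2 / ν) (T - ε * r ^ 2 / ν),
              ∫⁻ x in {x : V | |ed x c - ed x₀ c| < δ * r},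
                ENNReal.ofReal (∑ i, (x i - c i) * u t x i) := by
  obtain ⟨ε₁, hε₁, h1⟩ := Pool.Agent.H305.TI.inflow_pos (σ := 1) hν hM hδ one_ne_zero
  obtain ⟨ε₂, hε₂, h2⟩ := Pool.Agent.H305.TI.inflow_pos (σ := -1) hν hM hδ (by norm_num)
  refine ⟨min ε₁ ε₂, lt_min hε₁ hε₂, fun T ρ x₀ u p hTI hsg r hr hrρ hrT c hc => ?_⟩
  have hε : 0 < min ε₁ ε₂ := lt_min hε₁ hε₂
  have hr2 : 0 < r ^ 2 := by positivity
  have hρ : 0 < ρ := by
    by_contra hcon
    push Not at hcon
    nlinarith
  have hT : 0 < ν * T := by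
    by_contra hcon
    push Not at hcon
    nlinarith
  have key : ∀ ε' : ℝ, 0 < ε' → min ε₁ ε₂ ≤ ε' → ∀ F : ℝ → V → ℝ≥0∞,
      ENNReal.ofReal (ε' * r ^ 5) < ∫⁻ t in Ioo (T - r ^ 2 / ν) (T - ε' * r ^ 2 / ν),
              ∫⁻ x in {x : V | |ed x c - ed x₀ c| < δ * r}, F t x →
      ENNReal.ofReal (min ε₁ ε₂ * r ^ 5) < ∫⁻ t in Ioo (T - r ^ 2 / ν) (T - min ε₁ ε₂ * r ^ 2 / ν),
              ∫⁻ x in {x : V | |ed x c - ed x₀ c| < δ * r}, F t x := by
    intro ε' hε' hle F hF
    refine (ENNReal.ofReal_le_ofReal (mul_le_mul_of_nonneg_right hle (by positivity))).trans_lt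
      (hF.trans_le (lintegral_mono_set ?_))
    intro t ht
    refine ⟨ht.1, ht.2.trans_le ?_⟩
    have : min ε₁ ε₂ * r ^ 2 / ν ≤ ε' * r ^ 2 / ν := by gcongr
    linarith
  constructor
  · have h3 := h1 T ρ x₀ u p hTI hsg r hr (hrρ.trans (mul_le_mul_of_nonneg_right (min_le_left _ _) hρ.le))
      (hrT.trans (mul_le_mul_of_nonneg_right (min_le_left _ _) hT.le)) c hc
    simp only [one_mul] at h3
    exact key ε₁ hε₁ (min_le_left _ _) _ h3
  · have h3 := h2 T ρ x₀ u p hTI hsg r hr (hrρ.trans (mul_le_mul_of_nonneg_right (min_le_right _ _) hρ.le))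
      (hrT.trans (mul_le_mul_of_nonneg_right (min_le_right _ _) hT.le)) c hc
    simp only [neg_mul, one_mul, neg_neg] at h3
    exact key ε₂ hε₂ (min_le_right _ _) _ h3

end Pool.Agent.Results.MP_6bf1e5_an.FlowThroughSpheres
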