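import Pool.Agent.H305.TI.Mono

/-!
# One-sided bounds for one entry of the velocity gradient exclude singularities of type I

Let `(u, p)` be a solution of the Navier-Stokes equations with viscosity `ν`, smooth for `t < T` on a
ball around `x₀`, with `|u| (|x - x₀| + √(T - t)) ≤ M` and `|p| (|x - x₀| + √(T - t))² ≤ M²`
(type I). There is `ε = ε(ν, M) > 0` such that `u` is bounded near `(x₀, T)` as soon as for one radius
`r`, one unit vector `f` and one unit vector `e(t)` for each time the derivative of the component
`f · u` in the direction `e(t)` is nearly of one sign: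
`∫∫ (e(t) · ∇(f · u))₋ dx dt ≤ ε r³` on the cylinder `|x - x₀| < r`, `ε r² < ν (T - t) < r²`.
So at a singularity of type I each entry of the velocity gradient, in all directions, changes sign
at all scales, with large positive and negative parts.

Proof. Limits of rescaled solutions are ancient solutions `v` with `|v| (|x| + √(-t)) ≤ M'` for which,
for each `t < 0`, the function `f · v(t)` is monotone along the lines in some direction. As it tends to
zero at both ends of each line it vanishes. Then the component `f · ω` of the vorticity satisfies the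
maximum principle without a stretching term and tends to `0` for `t → -∞`; so `f · v = f · ω = 0`,
the flow is planar and harmonic on each plane, hence `v = 0`. But the singularity makes the vorticity
of the limits nonzero, at all scales.
-/

set_option autoImplicit false

open MeasureTheory Set Metric Filter Topology
open scoped ContDiff ENNReal

namespace Pool.Agent.H305.Old.GradientEntrySign

open H459R3.NS (V pd)
open Pool.Agent.Results.MP_6bf1e5_an.PressureMonotone (TypeI Reg)

/-- The derivative `e · ∇(f · w) = ∑ⱼ ∑ᵢ eⱼ fᵢ ∂ⱼwᵢ` of the component `f · w` in the direction `e`. -/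
noncomputable def entry (e f : V) (w : V → V) (x : V) : ℝ :=
  ∑ j, e j * ∑ i, f i * pd j (fun y => w y i) x

theorem result (ν M : ℝ) (hν : 0 < ν) (hM : 0 < M) : ∃ ε : ℝ, 0 < ε ∧
    ∀ (T ρ : ℝ) (x₀ : V) (u : ℝ → V → V) (p : ℝ → V → ℝ), TypeI ν M T ρ x₀ u p → ¬ Reg T x₀ u →
      ∀ r : ℝ, 0 < r → r ≤ ρ → r ^ 2 ≤ ν * T →
        ∀ (f : V) (e : ℝ → V), ∑ i, f i ^ 2 = 1 → (∀ t, ∑ i, e t i ^ 2 = 1) →
          ENNReal.ofReal (ε * r ^ 3) < ∫⁻ t in Ioo (T - r ^ 2 / ν) (T - ε * r ^ 2 / ν),
              ∫⁻ x in {x : V | ∑ i, (x i - x₀ i) ^ 2 < r ^ 2},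
                ENNReal.ofReal (-(entry (e t) f (u t) x)) ∧
          ENNReal.ofReal (ε * r ^ 3) < ∫⁻ t in Ioo (T - r ^ 2 / ν) (T - ε * r ^ 2 / ν),
              ∫⁻ x in {x : V | ∑ i, (x i - x₀ i) ^ 2 < r ^ 2},
                ENNReal.ofReal (entry (e t) f (u t) x) := by
  obtain ⟨ε, hε, h⟩ := Pool.Agent.H305.TI.entry_all hν hM
  refine ⟨ε, hε, fun T ρ x₀ u p hTI hsg r hr hrρ hrT f e hf he => ⟨?_, ?_⟩⟩
  · exact h T ρ x₀ u p hTI hsg r hr hrρ hrT f e hf he
  · have h1 := h T ρ x₀ u p hTI hsg r hr hrρ hrT f (fun t => -e t) hf (fun t => by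
      simpa using he t)
    have e1 : ∀ t x, -(Pool.Agent.H305.TI.ent (-e t) f (u t) x) = entry (e t) f (u t) x := by
      intro t x
      unfold Pool.Agent.H305.TI.ent entry
      rw [← Finset.sum_neg_distrib]
      exact Finset.sum_congr rfl fun j _ => by
        rw [Pi.neg_apply]
        ring
    simp only [e1] at h1
    exact h1

end Pool.Agent.H305.Old.GradientEntrySign
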