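import Pool.Agent.H305.SL.Fin2

/-!
# One entry of the velocity gradient, in oblique directions, and only its negative part

Let `(u, p)` be a smooth solution of the Navier-Stokes equations on `(0, T) × ℝ³`, all of whose spatial
derivatives are bounded and square integrable, locally uniformly in `t`. Let `f` be a fixed unit
vector and let `e(t)` be arbitrary unit vectors, which may depend on the time in an arbitrary way. If
  `(e(t) · ∇(f · u))₋ ∈ L^α(a, T; L^β(ℝ³))`, `2 / α + 2 / β < 1`,
then `u` is bounded near the time `T`.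

Proof. (1) On lines parallel to `e`, `|h|^r ≤ r ∫ |h|^(r-1) (∂ₑh)₋` for `h = f · u`, since `h` vanishes
at both ends. Hence, with `r = 3 - 2 / β`,
  `‖h F‖₂ ≤ N ‖F‖₂^(1 - 2 / r) ‖∇F‖₂^(2 / r)` for all `F ∈ H¹`, where `N^r ≤ C g ‖u‖₂^(2 - 2 / β)`,
and `N` is in `L^λ` in time for some `λ > 2 r / (r - 2)`, a nearly scaling invariant bound.
(2) Energy estimates in slabs `|f · x - y| < ρ` with the backward heat kernel in the one variable
`f · x` as weight: the flux through the planes contains only the component `h` of the velocity. The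
pressure is estimated by kernels of compact support and a sum over the larger scales. By induction
over the scales, `∫ |u|²` over the slab, and `∫∫ |∇u|²` over the slab and a time interval of length
`ρ²`, are at most `A ρ` for all slabs and all `ρ ≤ 1` (the flux is the only quantity which is used, as
in the work of Wang, Wu and Zhang on one component).
(3) The weighted dissipation up to the time `T` is finite, so there are good times at all small
scales. Local energy estimates in balls of radius `K ρ`, `K` large, then show that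
`∫∫ |∇u|²` over balls of radius `L ρ` and the last interval of length `ρ² / 4` is at most `θ ρ`.
(4) A local regularity theorem in the frame moving with the mollified velocity bounds `u` near each
plane; far away from the plane `f · x = 0` the dissipation is small, and the same theorem applies.
-/

set_option autoImplicit false

open MeasureTheory Set
open scoped ContDiff ENNReal

namespace Pool.Agent.Results.MP_6bf1e5_an.NearCriticalEntry

/-- The space `ℝ³`. -/
abbrev V : Type := Fin 3 → ℝ

/-- The partial derivative `∂ⱼ f`. -/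
noncomputable def pd (j : Fin 3) (f : V → ℝ) : V → ℝ := fun x => fderiv ℝ f x (Pi.single j 1)

/-- Iterated partial derivatives `∂_{j_n} ⋯ ∂_{j_1} f`. -/
noncomputable def dd : List (Fin 3) → (V → ℝ) → V → ℝ
  | [], f => f
  | j :: l, f => dd l (pd j f)

/-- `f` is bounded by `C` and the integral of its square is at most `C`. -/
def Bd (C : ℝ) (f : V → ℝ) : Prop :=
  (∀ x, |f x| ≤ C) ∧ ∫⁻ x, ENNReal.ofReal (f x ^ 2) ≤ ENNReal.ofReal C

/-- Smooth solutions of the Navier-Stokes equations with viscosity `ν` on `(0, T) × ℝ³`, such that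
each spatial derivative of `u` and of `p` is bounded and square integrable in space, uniformly on
compact subintervals of `(0, T)`. -/
structure Sol (ν T : ℝ) (u : ℝ → V → V) (p : ℝ → V → ℝ) : Prop where
  smu : ∀ i, ContDiffOn ℝ ∞ (fun z : ℝ × V => u z.1 z.2 i) (Ioo 0 T ×ˢ univ)
  smp : ContDiffOn ℝ ∞ (fun z : ℝ × V => p z.1 z.2) (Ioo 0 T ×ˢ univ)
  bdu : ∀ (l : List (Fin 3)) (s t : ℝ), 0 < s → t < T →
    ∃ C : ℝ, ∀ τ ∈ Icc s t, ∀ i, Bd C (dd l fun x => u τ x i)
  bdp : ∀ (l : List (Fin 3)) (s t : ℝ), 0 < s → t < T → ∃ C : ℝ, ∀ τ ∈ Icc s t, Bd C (dd l (p τ))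
  div : ∀ t ∈ Ioo 0 T, ∀ x, ∑ i, pd i (fun y => u t y i) x = 0
  mom : ∀ t ∈ Ioo 0 T, ∀ x i, deriv (fun s => u s x i) t
      + ∑ j, u t x j * pd j (fun y => u t y i) x
    = ν * ∑ j, pd j (pd j fun y => u t y i) x - pd i (p t) x

/-- The derivative `(e · ∇)(f · v)` of the component `f · v` in the direction `e`. -/
noncomputable def entry (e f : V) (v : V → V) : V → ℝ := fun x =>
  ∑ i, ∑ j, e i * f j * pd i (fun y => v y j) x

lemma dd_eq (l : List (Fin 3)) : ∀ f : V → ℝ, dd l f = Pool.Agent.H305.TI.it l f := by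
  induction l with
  | nil => intro f; rfl
  | cons j l ih =>
    intro f
    show dd l (pd j f) = _
    rw [ih, Pool.Agent.H305.TI.it_cons]
    rfl

lemma Sol.toHS {ν T : ℝ} (hν : 0 < ν) {u : ℝ → V → V} {p : ℝ → V → ℝ} (h : Sol ν T u p) :
    Pool.Agent.H305.OS.HS ν T u p := by
  refine ⟨hν, h.smu, h.smp, fun s t hs ht i => ?_, fun s t hs ht => ?_, h.div, ?_⟩
  · refine ⟨fun τ hτ => Pool.Agent.V1183.PM.J.slice (F := fun t x => u t x i) (h.smu i)
      ⟨hs.trans_le hτ.1, hτ.2.trans_lt ht⟩, fun l => ?_⟩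
    obtain ⟨C, hC⟩ := h.bdu l s t hs ht
    refine ⟨max C 0, le_max_right _ _, fun τ hτ => ?_⟩
    have h1 := hC τ hτ i
    rw [dd_eq] at h1
    exact ⟨fun x => (h1.1 x).trans (le_max_left _ _),
      h1.2.trans (ENNReal.ofReal_le_ofReal (le_max_left _ _))⟩
  · refine ⟨fun τ hτ => Pool.Agent.V1183.PM.J.slice (F := p) h.smp
      ⟨hs.trans_le hτ.1, hτ.2.trans_lt ht⟩, fun l => ?_⟩
    obtain ⟨C, hC⟩ := h.bdp l s t hs ht
    refine ⟨max C 0, le_max_right _ _, fun τ hτ => ?_⟩
    have h1 := hC τ hτ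
    rw [dd_eq] at h1
    exact ⟨fun x => (h1.1 x).trans (le_max_left _ _),
      h1.2.trans (ENNReal.ofReal_le_ofReal (le_max_left _ _))⟩
  · intro i t ht x
    have h1 := h.mom t ht x i
    have h2 : ν * Pool.Agent.H305.OS.lp (fun y => u t y i) x
        - Pool.Agent.H305.OS.nl (fun i y => u t y i) i x - H459R3.NS.pd i (p t) x
        = ν * ∑ j, pd j (pd j fun y => u t y i) x - ∑ j, u t x j * pd j (fun y => u t y i) x
          - pd i (p t) x := rfl
    rw [h2]
    linarith

theorem result {ν T : ℝ} (hν : 0 < ν) {u : ℝ → V → V} {p : ℝ → V → ℝ} (h : Sol ν T u p) {a : ℝ}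
    (ha : 0 ≤ a) (haT : a < T) {f : V} (hf : ∑ i, f i ^ 2 = 1) {e : ℝ → V}
    (he : ∀ t ∈ Ioo a T, ∑ i, e t i ^ 2 = 1) {α β : ℝ≥0∞} (hαβ : 2 / α + 2 / β < 1)
    {g : ℝ → ℝ} (hg : MemLp g α (volume.restrict (Ioo a T)))
    (hb : ∀ t ∈ Ioo a T, eLpNorm (fun x => max (-entry (e t) f (u t) x) 0) β volume
      ≤ ENNReal.ofReal (g t)) :
    ∃ M : ℝ, ∃ s ∈ Ioo 0 T, ∀ t ∈ Ioo s T, ∀ x i, |u t x i| ≤ M :=
  Pool.Agent.H305.SL.HS.critN (h.toHS hν) ha haT hf he hαβ hg hb

end Pool.Agent.Results.MP_6bf1e5_an.NearCriticalEntry
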