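import Pool.Agent.H305.OS.Fin

/-!
# One entry of the velocity gradient, in oblique directions, and only its negative part

Let `(u, p)` be a smooth solution of the Navier-Stokes equations on `(0, T) × ℝ³`, all of whose spatial
derivatives are bounded and square integrable, locally uniformly in `t`. Let `f` be a fixed unit
vector and let `e(t)` be arbitrary unit vectors, which may depend on the time in an arbitrary way. If
  `(e(t) · ∇(f · u))₋ ∈ L^α(a, T; L^β(ℝ³))`, `4 / α + 3 / β ≤ 1`,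
then `u` is bounded near the time `T`. If `|e(t) · f| ≥ δ > 0`, then the larger range
`8 / α + 6 / β ≤ 3`, `β > 2` is enough.

For `e`, `f` coordinate vectors and the whole entry instead of its negative part, these are the two
ranges of the criterion of Cao and Titi (entries off the diagonal and on the diagonal).

Proof. On lines parallel to `e`, `|h(x)|^r ≤ r ∫ |h|^(r-1) (∂ₑh)₋` for `h = f · u`, since `h` vanishes
at both ends. With the horizontal directions orthogonal to `f` and sheared coordinates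
`(e, x_a, x_b)` this bounds `∫ h² |∇u|²` by
  `C (∫ |h|^(r-1) (∂ₑh)₋)^(2/r) ‖∇u‖^(2-4/r) (‖∂_a ∇u‖ ‖∂_b ∇u‖)^(2/r)`,
and one of the directions `a`, `b` (both, if `e` is not orthogonal to `f`) can be taken horizontal.
The cubic term in the identity for the horizontal gradient is `∫ h B`, where `B` is bilinear in `∇u`
and in the horizontal derivatives of `∇u` (Kukavica and Ziane). The estimates for `‖∇ₕ u‖` and
`‖∇ u‖` close near `T`, since the energy makes `∫ ‖∇u‖²` small there. Estimates for the derivatives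
of order two and three then bound the maximum of `u`.
-/

set_option autoImplicit false

open MeasureTheory Set
open scoped ContDiff ENNReal

namespace Pool.Agent.Results.MP_6bf1e5_an.OneSidedEntry

/-- The space `ℝ³`. -/
abbrev V : Type := Fin 3 → ℝ

/-- The partial derivative `∂ⱼ f`. -/
noncomputable def pd (j : Fin 3) (f : V → ℝ) : V → ℝ := fun x => fderiv ℝ f x (Pi.single j 1)

/-- Iterated partial derivatives `∂_{j_n} ⋯ ∂_{j_1} f`. -/
noncomputable def dd : List (Fin 3) → (V → ℝ) → V → ℝ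
  | [], f => f
  | j :: l, f => dd l (pd j f)

/-- `f` is bounded by `C` and the integral of its square is at most `C`. -/
def Bd (C : ℝ) (f : V → ℝ) : Prop :=
  (∀ x, |f x| ≤ C) ∧ ∫⁻ x, ENNReal.ofReal (f x ^ 2) ≤ ENNReal.ofReal C

/-- Smooth solutions of the Navier-Stokes equations with viscosity `ν` on `(0, T) × ℝ³`, such that
each spatial derivative of `u` and of `p` is bounded and square integrable in space, uniformly on
compact subintervals of `(0, T)`. -/
structure Sol (ν T : ℝ) (u : ℝ → V → V) (p : ℝ → V → ℝ) : Prop where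
  smu : ∀ i, ContDiffOn ℝ ∞ (fun z : ℝ × V => u z.1 z.2 i) (Ioo 0 T ×ˢ univ)
  smp : ContDiffOn ℝ ∞ (fun z : ℝ × V => p z.1 z.2) (Ioo 0 T ×ˢ univ)
  bdu : ∀ (l : List (Fin 3)) (s t : ℝ), 0 < s → t < T →
    ∃ C : ℝ, ∀ τ ∈ Icc s t, ∀ i, Bd C (dd l fun x => u τ x i)
  bdp : ∀ (l : List (Fin 3)) (s t : ℝ), 0 < s → t < T → ∃ C : ℝ, ∀ τ ∈ Icc s t, Bd C (dd l (p τ))
  div : ∀ t ∈ Ioo 0 T, ∀ x, ∑ i, pd i (fun y => u t y i) x = 0
  mom : ∀ t ∈ Ioo 0 T, ∀ x i, deriv (fun s => u s x i) t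
      + ∑ j, u t x j * pd j (fun y => u t y i) x
    = ν * ∑ j, pd j (pd j fun y => u t y i) x - pd i (p t) x

/-- The derivative `(e · ∇)(f · v)` of the component `f · v` in the direction `e`. -/
noncomputable def entry (e f : V) (v : V → V) : V → ℝ := fun x =>
  ∑ i, ∑ j, e i * f j * pd i (fun y => v y j) x

lemma dd_eq (l : List (Fin 3)) : ∀ f : V → ℝ, dd l f = Pool.Agent.H305.TI.it l f := by
  induction l with
  | nil => intro f; rfl
  | cons j l ih =>
    intro f
    show dd l (pd j f) = _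
    rw [ih, Pool.Agent.H305.TI.it_cons]
    rfl

lemma Sol.toHS {ν T : ℝ} (hν : 0 < ν) {u : ℝ → V → V} {p : ℝ → V → ℝ} (h : Sol ν T u p) :
    Pool.Agent.H305.OS.HS ν T u p := by
  refine ⟨hν, h.smu, h.smp, fun s t hs ht i => ?_, fun s t hs ht => ?_, h.div, ?_⟩
  · refine ⟨fun τ hτ => Pool.Agent.V1183.PM.J.slice (F := fun t x => u t x i) (h.smu i)
      ⟨hs.trans_le hτ.1, hτ.2.trans_lt ht⟩, fun l => ?_⟩
    obtain ⟨C, hC⟩ := h.bdu l s t hs ht
    refine ⟨max C 0, le_max_right _ _, fun τ hτ => ?_⟩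
    have h1 := hC τ hτ i
    rw [dd_eq] at h1
    exact ⟨fun x => (h1.1 x).trans (le_max_left _ _),
      h1.2.trans (ENNReal.ofReal_le_ofReal (le_max_left _ _))⟩
  · refine ⟨fun τ hτ => Pool.Agent.V1183.PM.J.slice (F := p) h.smp
      ⟨hs.trans_le hτ.1, hτ.2.trans_lt ht⟩, fun l => ?_⟩
    obtain ⟨C, hC⟩ := h.bdp l s t hs ht
    refine ⟨max C 0, le_max_right _ _, fun τ hτ => ?_⟩
    have h1 := hC τ hτ
    rw [dd_eq] at h1
    exact ⟨fun x => (h1.1 x).trans (le_max_left _ _),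
      h1.2.trans (ENNReal.ofReal_le_ofReal (le_max_left _ _))⟩
  · intro i t ht x
    have h1 := h.mom t ht x i
    have h2 : ν * Pool.Agent.H305.OS.lp (fun y => u t y i) x
        - Pool.Agent.H305.OS.nl (fun i y => u t y i) i x - H459R3.NS.pd i (p t) x
        = ν * ∑ j, pd j (pd j fun y => u t y i) x - ∑ j, u t x j * pd j (fun y => u t y i) x
          - pd i (p t) x := rfl
    rw [h2]
    linarith

theorem result {ν T : ℝ} (hν : 0 < ν) {u : ℝ → V → V} {p : ℝ → V → ℝ} (h : Sol ν T u p) {a : ℝ}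
    (ha : 0 ≤ a) (haT : a < T) {f : V} (hf : ∑ i, f i ^ 2 = 1) {e : ℝ → V}
    (he : ∀ t ∈ Ioo a T, ∑ i, e t i ^ 2 = 1) {α β : ℝ≥0∞}
    (hαβ : 4 / α + 3 / β ≤ 1 ∨ (2 < β ∧ 8 / α + 6 / β ≤ 3 ∧
      ∃ δ : ℝ, 0 < δ ∧ ∀ t ∈ Ioo a T, δ ≤ |∑ i, e t i * f i|))
    {g : ℝ → ℝ} (hg : MemLp g α (volume.restrict (Ioo a T)))
    (hb : ∀ t ∈ Ioo a T, eLpNorm (fun x => max (-entry (e t) f (u t) x) 0) β volume
      ≤ ENNReal.ofReal (g t)) :
    ∃ M : ℝ, ∃ s ∈ Ioo 0 T, ∀ t ∈ Ioo s T, ∀ x i, |u t x i| ≤ M := by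
  obtain ⟨M, s, hs, h1⟩ := (h.toHS hν).crit ha haT hf he hαβ hg hb
  exact ⟨M, s, hs, fun t ht => h1 t ⟨ht.1.le, ht.2⟩⟩

end Pool.Agent.Results.MP_6bf1e5_an.OneSidedEntry
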